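import Mathlib

set_option autoImplicit false

namespace Pool.R640.CG

variable {V : Type}

/-- The defining relators of the virtual right-angled Artin group `A_φ`: the generator `some v` is
the vertex `v`, the generator `none` is `t`.  They are the commutators of adjacent vertices, `t ^ m`
with `m` the order of `φ`, and `t⁻¹ v t φ(v)⁻¹`. -/
def vrels (Γ : SimpleGraph V) (φ : Equiv.Perm V) : Set (FreeGroup (Option V)) :=
  {r | (∃ u v : V, Γ.Adj u v ∧ r = FreeGroup.of (some u) * FreeGroup.of (some v) *
      (FreeGroup.of (some u))⁻¹ * (FreeGroup.of (some v))⁻¹) ∨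
    r = FreeGroup.of none ^ orderOf φ ∨
    ∃ v : V, r = (FreeGroup.of none)⁻¹ * FreeGroup.of (some v) * FreeGroup.of none *
      (FreeGroup.of (some (φ v)))⁻¹}

/-- The virtual right-angled Artin group `A_φ`. -/
abbrev VRaag (Γ : SimpleGraph V) (φ : Equiv.Perm V) : Type := PresentedGroup (vrels Γ φ)

/-- The standard generating set `X ∪ {t, t⁻¹}` of `A_φ`, as a subset of the group. -/
def Xhat (Γ : SimpleGraph V) (φ : Equiv.Perm V) : Set (VRaag Γ φ) :=
  {g | (∃ v : V, g = PresentedGroup.of (some v) ∨ g = (PresentedGroup.of (some v))⁻¹) ∨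
    g = PresentedGroup.of none ∨ g = (PresentedGroup.of none)⁻¹}

/-- The letters as formal symbols: `inl (v, true)` is `v`, `inl (v, false)` is `v⁻¹`, `inr true` is
`t` and `inr false` is `t⁻¹`. -/
abbrev Lt (V : Type) : Type := (V × Bool) ⊕ Bool

/-- The group element of a formal symbol. -/
def sym (Γ : SimpleGraph V) (φ : Equiv.Perm V) : Lt V → VRaag Γ φ
  | Sum.inl (v, true) => PresentedGroup.of (some v)
  | Sum.inl (v, false) => (PresentedGroup.of (some v))⁻¹
  | Sum.inr true => PresentedGroup.of none
  | Sum.inr false => (PresentedGroup.of none)⁻¹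

/-- The conjugacy geodesic language of a group `G` over letters `Y` with values `val`: the words
whose length is minimal among all words representing an element of the same conjugacy class. -/
def ConjGeo {G Y : Type} [Group G] (val : Y → G) : Language Y :=
  {w | ∀ w' : List Y, IsConj (w.map val).prod (w'.map val).prod → w.length ≤ w'.length}

end Pool.R640.CG
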