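import Pool.Agent.R640.CG.Raag
import Pool.Agent.R640.CG.Defs

set_option autoImplicit false

/-!
# Conjugacy geodesics in virtual RAAGs
-/

namespace Pool.R640.CG

variable {V : Type}

/-- apply a permutation to a letter -/
def ap (σ : Equiv.Perm V) (x : V × Bool) : V × Bool := (σ x.1, x.2)

@[simp] theorem ap_fst (σ : Equiv.Perm V) (x : V × Bool) : (ap σ x).1 = σ x.1 := rfl
@[simp] theorem ap_snd (σ : Equiv.Perm V) (x : V × Bool) : (ap σ x).2 = x.2 := rfl
@[simp] theorem ap_one (x : V × Bool) : ap 1 x = x := rfl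
theorem ap_mul (σ τ : Equiv.Perm V) (x : V × Bool) : ap (σ * τ) x = ap σ (ap τ x) := rfl
theorem ap_iv (σ : Equiv.Perm V) (x : V × Bool) : ap σ (iv x) = iv (ap σ x) := rfl

theorem map_ap_one (u : List (V × Bool)) : u.map (ap 1) = u := by
  induction u with
  | nil => rfl
  | cons x u ih => rw [List.map_cons, ih, ap_one]

theorem map_ap_mul (σ τ : Equiv.Perm V) (u : List (V × Bool)) :
    u.map (ap (σ * τ)) = (u.map (ap τ)).map (ap σ) := by
  rw [List.map_map]
  rfl

/-- adjacency preserving permutations -/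
def Aut (Γ : SimpleGraph V) : Subgroup (Equiv.Perm V) where
  carrier := {σ | ∀ u v, Γ.Adj (σ u) (σ v) ↔ Γ.Adj u v}
  mul_mem' := by
    intro a b ha hb u v
    simp only [Set.mem_ofPred_eq] at ha hb
    rw [Equiv.Perm.mul_apply, Equiv.Perm.mul_apply, ha, hb]
  one_mem' := fun u v => Iff.rfl
  inv_mem' := by
    intro a ha u v
    simp only [Set.mem_ofPred_eq] at ha
    rw [← ha]
    simp

section
variable {Γ : SimpleGraph V}

theorem All_ap {σ : Equiv.Perm V} (hσ : σ ∈ Aut Γ) (x : V × Bool) (u : List (V × Bool)) :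
    All Γ (ap σ x) (u.map (ap σ)) ↔ All Γ x u := by
  unfold All
  simp only [List.mem_map, forall_exists_index, and_imp, forall_apply_eq_imp_iff₂, ap_fst]
  exact forall₂_congr fun z _ => hσ _ _

theorem Pre_ap {σ : Equiv.Perm V} (hσ : σ ∈ Aut Γ) (x : V × Bool) (u : List (V × Bool)) :
    Pre Γ (u.map (ap σ)) (ap σ x) ↔ Pre Γ u x := by
  induction u with
  | nil => rfl
  | cons y u ih =>
    simp only [List.map_cons, Pre, ih, ap_fst]
    have h1 : ap σ y = ap σ x ↔ y = x := by
      constructor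
      · intro h
        have h2 := congrArg Prod.fst h
        have h3 := congrArg Prod.snd h
        simp only [ap_fst, ap_snd, EmbeddingLike.apply_eq_iff_eq] at h2 h3
        exact Prod.ext h2 h3
      · rintro rfl; rfl
    rw [h1, hσ x.1 y.1]

theorem Can_ap {σ : Equiv.Perm V} (hσ : σ ∈ Aut Γ) (u : List (V × Bool)) :
    Can Γ (u.map (ap σ)) ↔ Can Γ u := by
  induction u with
  | nil => rfl
  | cons y u ih =>
    simp only [List.map_cons, Can, ih, ← ap_iv, Pre_ap hσ]

/-- induced endomorphism -/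
def raf (σ : Aut Γ) : Raag Γ →* Raag Γ :=
  PresentedGroup.toGroup (f := fun v => gn Γ (σ.1 v)) (by
    rintro r ⟨a, b, h, rfl⟩
    simp only [map_mul, map_inv, FreeGroup.lift_apply_of]
    rw [mul_inv_eq_one, mul_inv_eq_iff_eq_mul]
    exact gn_comm Γ ((σ.2 a b).2 h))

theorem raf_gn (σ : Aut Γ) (v : V) : raf σ (gn Γ v) = gn Γ (σ.1 v) :=
  PresentedGroup.toGroup.of _

theorem raf_ev (σ : Aut Γ) (u : List (V × Bool)) : raf σ (ev Γ u) = ev Γ (u.map (ap σ.1)) := by
  induction u with
  | nil => simp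
  | cons x u ih =>
    rw [ev_cons, map_mul, ih, List.map_cons, ev_cons]
    congr 1
    rcases x with ⟨v, b⟩
    cases b <;> simp [gl, raf_gn, ap]

theorem raf_mul (σ τ : Aut Γ) : raf (σ * τ) = (raf σ).comp (raf τ) := by
  apply PresentedGroup.ext
  intro v
  change raf (σ * τ) (gn Γ v) = raf σ (raf τ (gn Γ v))
  rw [raf_gn, raf_gn, raf_gn]
  rfl

theorem raf_one : raf (1 : Aut Γ) = MonoidHom.id _ := by
  apply PresentedGroup.ext
  intro v
  change raf (1 : Aut Γ) (gn Γ v) = gn Γ v
  rw [raf_gn]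
  rfl

/-- action on the RAAG -/
def ra : Aut Γ →* Equiv.Perm (Raag Γ) where
  toFun σ :=
    { toFun := raf σ
      invFun := raf σ⁻¹
      left_inv := by
        intro r
        have h := DFunLike.congr_fun (raf_mul σ⁻¹ σ) r
        rw [inv_mul_cancel, raf_one] at h
        exact h.symm
      right_inv := by
        intro r
        have h := DFunLike.congr_fun (raf_mul σ σ⁻¹) r
        rw [mul_inv_cancel, raf_one] at h
        exact h.symm }
  map_one' := by
    apply Equiv.ext
    intro r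
    exact DFunLike.congr_fun raf_one r
  map_mul' := by
    intro σ τ
    apply Equiv.ext
    intro r
    exact DFunLike.congr_fun (raf_mul σ τ) r

theorem ra_apply (σ : Aut Γ) (r : Raag Γ) : ra σ r = raf σ r := rfl

end

section
variable (Γ : SimpleGraph V) (φ : Equiv.Perm V)

/-- vertex generator -/
def vg (v : V) : VRaag Γ φ := PresentedGroup.of (some v)

/-- `t` -/
def tt : VRaag Γ φ := PresentedGroup.of none

theorem vg_comm {u v : V} (h : Γ.Adj u v) : vg Γ φ u * vg Γ φ v = vg Γ φ v * vg Γ φ u := by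
  have h1 : (PresentedGroup.mk (vrels Γ φ)) (FreeGroup.of (some u) * FreeGroup.of (some v) *
      (FreeGroup.of (some u))⁻¹ * (FreeGroup.of (some v))⁻¹) = 1 :=
    PresentedGroup.one_of_mem (Or.inl ⟨u, v, h, rfl⟩)
  simp only [map_mul, map_inv] at h1
  have h2 : vg Γ φ u * vg Γ φ v * (vg Γ φ u)⁻¹ * (vg Γ φ v)⁻¹ = 1 := h1
  rw [mul_inv_eq_one, mul_inv_eq_iff_eq_mul] at h2
  exact h2

theorem tt_pow : tt Γ φ ^ orderOf φ = 1 := by
  have h1 : (PresentedGroup.mk (vrels Γ φ)) (FreeGroup.of none ^ orderOf φ) = 1 :=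
    PresentedGroup.one_of_mem (Or.inr (Or.inl rfl))
  rw [map_pow] at h1
  exact h1

theorem tt_conj (v : V) : (tt Γ φ)⁻¹ * vg Γ φ v * tt Γ φ = vg Γ φ (φ v) := by
  have h1 : (PresentedGroup.mk (vrels Γ φ)) ((FreeGroup.of none)⁻¹ * FreeGroup.of (some v) *
      FreeGroup.of none * (FreeGroup.of (some (φ v)))⁻¹) = 1 :=
    PresentedGroup.one_of_mem (Or.inr (Or.inr ⟨v, rfl⟩))
  simp only [map_mul, map_inv] at h1
  have h2 : (tt Γ φ)⁻¹ * vg Γ φ v * tt Γ φ * (vg Γ φ (φ v))⁻¹ = 1 := h1
  rw [mul_inv_eq_one] at h2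
  exact h2

/-- the map from the RAAG -/
def jj : Raag Γ →* VRaag Γ φ :=
  PresentedGroup.toGroup (f := vg Γ φ) (by
    rintro r ⟨a, b, h, rfl⟩
    simp only [map_mul, map_inv, FreeGroup.lift_apply_of]
    rw [mul_inv_eq_one, mul_inv_eq_iff_eq_mul]
    exact vg_comm Γ φ h)

theorem jj_gn (v : V) : jj Γ φ (gn Γ v) = vg Γ φ v := PresentedGroup.toGroup.of _

theorem tt_conj_ev (u : List (V × Bool)) :
    (tt Γ φ)⁻¹ * jj Γ φ (ev Γ u) * tt Γ φ = jj Γ φ (ev Γ (u.map (ap φ))) := by
  induction u with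
  | nil => simp
  | cons x u ih =>
    have h1 : (tt Γ φ)⁻¹ * jj Γ φ (gl Γ x) * tt Γ φ = jj Γ φ (gl Γ (ap φ x)) := by
      rcases x with ⟨v, b⟩
      cases b
      · simp only [gl, ap, Bool.false_eq_true, if_false, map_inv, jj_gn, ← tt_conj]
        group
      · simp only [gl, ap, if_true, jj_gn, ← tt_conj]
    rw [List.map_cons, ev_cons, ev_cons, map_mul, map_mul, ← ih, ← h1]
    group

theorem ev_tt (u : List (V × Bool)) :
    jj Γ φ (ev Γ u) * tt Γ φ = tt Γ φ * jj Γ φ (ev Γ (u.map (ap φ))) := by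
  rw [← tt_conj_ev]
  group

theorem tt_ev (u : List (V × Bool)) :
    tt Γ φ * jj Γ φ (ev Γ u) = jj Γ φ (ev Γ (u.map (ap φ⁻¹))) * tt Γ φ := by
  rw [ev_tt, ← map_ap_mul]
  simp [map_ap_one]

theorem tti_ev (u : List (V × Bool)) :
    (tt Γ φ)⁻¹ * jj Γ φ (ev Γ u) = jj Γ φ (ev Γ (u.map (ap φ))) * (tt Γ φ)⁻¹ := by
  rw [← tt_conj_ev]
  group

theorem tz_ev (k : ℤ) (u : List (V × Bool)) :
    (tt Γ φ) ^ k * jj Γ φ (ev Γ u) = jj Γ φ (ev Γ (u.map (ap (φ ^ (-k))))) * (tt Γ φ) ^ k := by
  induction k using Int.induction_on generalizing u with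
  | zero => simp [map_ap_one]
  | succ n ih =>
    rw [zpow_add_one, mul_assoc, tt_ev, ← mul_assoc, ih, mul_assoc, ← map_ap_mul]
    congr 5
    rw [neg_add, zpow_add, zpow_neg_one]
  | pred n ih =>
    rw [zpow_sub_one, mul_assoc, tti_ev, ← mul_assoc, ih, mul_assoc, ← map_ap_mul]
    congr 5
    rw [neg_sub, sub_neg_eq_add, add_comm, zpow_add, zpow_one, neg_neg]

/-- untwisted word -/
def untw : Equiv.Perm V → List (Lt V) → List (V × Bool)
  | _, [] => []
  | σ, Sum.inl x :: w => ap σ x :: untw σ w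
  | σ, Sum.inr true :: w => untw (σ * φ⁻¹) w
  | σ, Sum.inr false :: w => untw (σ * φ) w

/-- exponent of t -/
def tx : List (Lt V) → ℤ
  | [] => 0
  | Sum.inl _ :: w => tx w
  | Sum.inr true :: w => 1 + tx w
  | Sum.inr false :: w => -1 + tx w

/-- number of t -/
def cp : List (Lt V) → ℕ
  | [] => 0
  | Sum.inl _ :: w => cp w
  | Sum.inr true :: w => cp w + 1
  | Sum.inr false :: w => cp w

/-- number of t inverse -/
def cq : List (Lt V) → ℕ
  | [] => 0
  | Sum.inl _ :: w => cq w
  | Sum.inr true :: w => cq w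
  | Sum.inr false :: w => cq w + 1

theorem tx_eq (w : List (Lt V)) : tx w = (cp w : ℤ) - cq w := by
  induction w with
  | nil => simp [tx, cp, cq]
  | cons x w ih =>
    rcases x with x | (_ | _) <;> simp only [tx, cp, cq, ih] <;> push_cast <;> ring

theorem len_eq (w : List (Lt V)) (σ : Equiv.Perm V) :
    w.length = (untw φ σ w).length + cp w + cq w := by
  induction w generalizing σ with
  | nil => simp [untw, cp, cq]
  | cons x w ih =>
    rcases x with x | (_ | _)
    · simp only [untw, cp, cq, List.length_cons, ih σ]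
      ring
    · simp only [untw, cp, cq, List.length_cons, ih (σ * φ)]
      ring
    · simp only [untw, cp, cq, List.length_cons, ih (σ * φ⁻¹)]
      ring

theorem untw_map (σ τ : Equiv.Perm V) (w : List (Lt V)) :
    untw φ (σ * τ) w = (untw φ τ w).map (ap σ) := by
  induction w generalizing τ with
  | nil => simp [untw]
  | cons x w ih =>
    rcases x with x | (_ | _)
    · simp only [untw, List.map_cons, ih, ap_mul]
    · simp only [untw, mul_assoc, ih]
    · simp only [untw, mul_assoc, ih]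

theorem untw_map' (σ : Equiv.Perm V) (w : List (Lt V)) :
    untw φ σ w = (untw φ 1 w).map (ap σ) := by
  have := untw_map φ σ 1 w
  rwa [mul_one] at this

theorem untw_append (σ : Equiv.Perm V) (w w' : List (Lt V)) :
    untw φ σ (w ++ w') = untw φ σ w ++ untw φ (σ * φ ^ (-tx w)) w' := by
  induction w generalizing σ with
  | nil => simp [untw, tx]
  | cons x w ih =>
    rcases x with x | (_ | _)
    · simp only [List.cons_append, untw, tx, ih]
    · simp only [List.cons_append, untw, tx, ih]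
      congr 2
      rw [mul_assoc]
      congr 1
      rw [neg_add, neg_neg, zpow_add, zpow_one]
    · simp only [List.cons_append, untw, tx, ih]
      congr 2
      rw [mul_assoc]
      congr 1
      rw [neg_add, zpow_add, zpow_neg_one]

theorem tx_append (w w' : List (Lt V)) : tx (w ++ w') = tx w + tx w' := by
  induction w with
  | nil => simp [tx]
  | cons x w ih =>
    rcases x with x | (_ | _) <;> simp only [List.cons_append, tx, ih] <;> ring

theorem cp_append (w w' : List (Lt V)) : cp (w ++ w') = cp w + cp w' := by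
  induction w with
  | nil => simp [cp]
  | cons x w ih =>
    rcases x with x | (_ | _) <;> simp only [List.cons_append, cp, ih] <;> ring

theorem cq_append (w w' : List (Lt V)) : cq (w ++ w') = cq w + cq w' := by
  induction w with
  | nil => simp [cq]
  | cons x w ih =>
    rcases x with x | (_ | _) <;> simp only [List.cons_append, cq, ih] <;> ring

theorem sym_inl (x : V × Bool) : sym Γ φ (Sum.inl x) = jj Γ φ (gl Γ x) := by
  rcases x with ⟨v, b⟩
  cases b <;> simp [sym, gl, jj_gn, vg]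

theorem sym_t : sym Γ φ (Sum.inr true) = tt Γ φ := rfl
theorem sym_ti : sym Γ φ (Sum.inr false) = (tt Γ φ)⁻¹ := rfl

theorem nf (w : List (Lt V)) : ∀ k : ℤ, (tt Γ φ) ^ k * (w.map (sym Γ φ)).prod =
    jj Γ φ (ev Γ (untw φ (φ ^ (-k)) w)) * (tt Γ φ) ^ (k + tx w) := by
  induction w with
  | nil => intro k; simp [untw, tx]
  | cons x w ih =>
    intro k
    rcases x with x | (_ | _)
    · rw [List.map_cons, List.prod_cons, sym_inl, ← mul_assoc]
      have h1 := tz_ev Γ φ k [x]
      simp only [ev_cons, ev_nil, mul_one, List.map_cons, List.map_nil] at h1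
      rw [h1, mul_assoc, ih]
      simp only [untw, tx, ev_cons, map_mul, mul_assoc]
    · have e1 : φ ^ (-(k - 1)) = φ ^ (-k) * φ := by
        rw [neg_sub, sub_eq_add_neg, add_comm, zpow_add, zpow_one]
      have e2 : k - 1 + tx w = k + (-1 + tx w) := by ring
      rw [List.map_cons, List.prod_cons, sym_ti, ← mul_assoc, ← zpow_sub_one, ih, e1, e2]
      rfl
    · have e1 : φ ^ (-(k + 1)) = φ ^ (-k) * φ⁻¹ := by
        rw [neg_add, zpow_add, zpow_neg_one]
      have e2 : k + 1 + tx w = k + (1 + tx w) := by ring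
      rw [List.map_cons, List.prod_cons, sym_t, ← mul_assoc, ← zpow_add_one, ih, e1, e2]
      rfl

theorem nf' (w : List (Lt V)) : (w.map (sym Γ φ)).prod =
    jj Γ φ (ev Γ (untw φ 1 w)) * (tt Γ φ) ^ (tx w) := by
  have := nf Γ φ w 0
  simpa using this

end

end Pool.R640.CG
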