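import Pool.Agent.R640.CG.Main

set_option autoImplicit false

/-!
# Conjugacy geodesics in virtual RAAGs: lower bound and conjugations
-/

namespace Pool.R640.CG

variable {V : Type} (Γ : SimpleGraph V) (φ : Equiv.Perm V)

section rep
variable (hφ : φ ∈ Aut Γ)

/-- images of the generators in the representation -/
def lamg : Option V → Equiv.Perm (Raag Γ)
  | none => ra (⟨φ, hφ⟩ : Aut Γ)⁻¹
  | some v => Equiv.mulLeft (gn Γ v)

/-- representation on the RAAG -/
def lam : VRaag Γ φ →* Equiv.Perm (Raag Γ) :=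
  PresentedGroup.toGroup (f := lamg Γ φ hφ) (by
    rintro r (⟨a, b, h, rfl⟩ | rfl | ⟨v, rfl⟩)
    · simp only [map_mul, map_inv, FreeGroup.lift_apply_of]
      rw [mul_inv_eq_one, mul_inv_eq_iff_eq_mul]
      apply Equiv.ext
      intro r
      change gn Γ a * (gn Γ b * r) = gn Γ b * (gn Γ a * r)
      rw [← mul_assoc, ← mul_assoc, gn_comm Γ h]
    · simp only [map_pow, FreeGroup.lift_apply_of, lamg]
      rw [← map_pow]
      have : ((⟨φ, hφ⟩ : Aut Γ)⁻¹) ^ orderOf φ = 1 := by
        apply Subtype.ext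
        change (φ⁻¹) ^ orderOf φ = 1
        rw [inv_pow, pow_orderOf_eq_one, inv_one]
      rw [this, map_one]
    · simp only [map_mul, map_inv, FreeGroup.lift_apply_of, lamg, inv_inv]
      rw [mul_inv_eq_one]
      apply Equiv.ext
      intro r
      have h1 : raf (⟨φ, hφ⟩ : Aut Γ) (raf (⟨φ, hφ⟩ : Aut Γ)⁻¹ r) = r := by
        have h := DFunLike.congr_fun (raf_mul (⟨φ, hφ⟩ : Aut Γ) (⟨φ, hφ⟩ : Aut Γ)⁻¹) r
        rw [mul_inv_cancel, raf_one] at h
        exact h.symm
      change raf (⟨φ, hφ⟩ : Aut Γ) (gn Γ v * raf (⟨φ, hφ⟩ : Aut Γ)⁻¹ r) = gn Γ (φ v) * r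
      rw [map_mul, h1, raf_gn])

theorem lam_vg (v : V) : lam Γ φ hφ (vg Γ φ v) = Equiv.mulLeft (gn Γ v) :=
  PresentedGroup.toGroup.of _

theorem lam_tt : lam Γ φ hφ (tt Γ φ) = ra (⟨φ, hφ⟩ : Aut Γ)⁻¹ :=
  PresentedGroup.toGroup.of _

theorem lam_word (w : List (Lt V)) :
    lam Γ φ hφ ((w.map (sym Γ φ)).prod) 1 = ev Γ (untw φ 1 w) := by
  induction w with
  | nil => simp [untw]
  | cons x w ih =>
    rw [List.map_cons, List.prod_cons, map_mul, Equiv.Perm.mul_apply, ih]
    rcases x with ⟨v, b⟩ | (_ | _)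
    · cases b
      · have : sym Γ φ (Sum.inl (v, false)) = (vg Γ φ v)⁻¹ := rfl
        rw [this, map_inv, lam_vg]
        simp [untw, gl]
      · have : sym Γ φ (Sum.inl (v, true)) = vg Γ φ v := rfl
        rw [this, lam_vg]
        simp [untw, gl]
    · rw [sym_ti, map_inv, lam_tt, ← map_inv, inv_inv, ra_apply, raf_ev]
      simp only [untw]
      rw [one_mul, untw_map' φ φ w]
    · rw [sym_t, lam_tt, ra_apply, raf_ev]
      simp only [untw]
      rw [one_mul, untw_map' φ φ⁻¹ w]
      rfl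

include hφ in
theorem ev_eq_of_prod_eq {w w' : List (Lt V)}
    (h : (w.map (sym Γ φ)).prod = (w'.map (sym Γ φ)).prod) :
    ev Γ (untw φ 1 w) = ev Γ (untw φ 1 w') := by
  rw [← lam_word Γ φ hφ w, h, lam_word Γ φ hφ w']

end rep

/-- images of generators for the exponent map -/
noncomputable def texg : Option V → Multiplicative (ZMod (orderOf φ))
  | none => Multiplicative.ofAdd 1
  | some _ => 1

/-- exponent map -/
noncomputable def tex : VRaag Γ φ →* Multiplicative (ZMod (orderOf φ)) :=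
  PresentedGroup.toGroup (f := texg φ) (by
    rintro r (⟨a, b, h, rfl⟩ | rfl | ⟨v, rfl⟩)
    · simp [texg]
    · simp only [map_pow, FreeGroup.lift_apply_of, texg]
      rw [← ofAdd_nsmul]
      simp
    · simp [texg])

theorem tex_word (w : List (Lt V)) : tex Γ φ ((w.map (sym Γ φ)).prod) =
    Multiplicative.ofAdd ((tx w : ℤ) : ZMod (orderOf φ)) := by
  have h1 : ∀ v, tex Γ φ (vg Γ φ v) = 1 := fun v => PresentedGroup.toGroup.of _
  have h2 : tex Γ φ (tt Γ φ) = Multiplicative.ofAdd 1 := PresentedGroup.toGroup.of _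
  induction w with
  | nil => simp [tx]
  | cons x w ih =>
    rw [List.map_cons, List.prod_cons, map_mul, ih]
    rcases x with ⟨v, b⟩ | (_ | _)
    · cases b
      · have : sym Γ φ (Sum.inl (v, false)) = (vg Γ φ v)⁻¹ := rfl
        rw [this, map_inv, h1]
        simp [tx]
      · have : sym Γ φ (Sum.inl (v, true)) = vg Γ φ v := rfl
        rw [this, h1]
        simp [tx]
    · rw [sym_ti, map_inv, h2, ← ofAdd_neg, ← ofAdd_add]
      simp [tx]
    · rw [sym_t, h2, ← ofAdd_add]
      simp [tx]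

theorem tt_zpow_eq {a b : ℤ} (h : (a : ZMod (orderOf φ)) = (b : ZMod (orderOf φ))) :
    (tt Γ φ) ^ a = (tt Γ φ) ^ b := by
  rw [ZMod.intCast_eq_intCast_iff_dvd_sub] at h
  obtain ⟨c, hc⟩ := h
  have : b = a + orderOf φ * c := by linarith
  rw [this, zpow_add, zpow_mul, zpow_natCast, tt_pow, one_zpow, mul_one]

/-- every element is the value of a word -/
theorem exists_word (g : VRaag Γ φ) : ∃ w : List (Lt V), (w.map (sym Γ φ)).prod = g := by
  obtain ⟨f, rfl⟩ := QuotientGroup.mk_surjective g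
  induction f using FreeGroup.induction_on with
  | C1 => exact ⟨[], rfl⟩
  | of x =>
    cases x with
    | none =>
      refine ⟨[Sum.inr true], ?_⟩
      rw [List.map_cons, List.map_nil, List.prod_cons, List.prod_nil, mul_one]
      rfl
    | some v =>
      refine ⟨[Sum.inl (v, true)], ?_⟩
      rw [List.map_cons, List.map_nil, List.prod_cons, List.prod_nil, mul_one]
      rfl
  | inv_of x _ =>
    cases x with
    | none =>
      refine ⟨[Sum.inr false], ?_⟩
      rw [List.map_cons, List.map_nil, List.prod_cons, List.prod_nil, mul_one]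
      rfl
    | some v =>
      refine ⟨[Sum.inl (v, false)], ?_⟩
      rw [List.map_cons, List.map_nil, List.prod_cons, List.prod_nil, mul_one]
      rfl
  | mul x y hx hy =>
    obtain ⟨w1, h1⟩ := hx
    obtain ⟨w2, h2⟩ := hy
    refine ⟨w1 ++ w2, ?_⟩
    rw [List.map_append, List.prod_append, h1, h2]
    rfl

/-- the t-part is geodesic -/
def Tgeo (w : List (Lt V)) : Prop := ∀ p q : ℕ,
  (((p : ℤ) - q : ℤ) : ZMod (orderOf φ)) = ((tx w : ℤ) : ZMod (orderOf φ)) → cp w + cq w ≤ p + q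

/-- twisted cancellation -/
def Bad (σ : Equiv.Perm V) (u : List (V × Bool)) : Prop :=
  ∃ (a : V × Bool) (j : ℕ), 1 ≤ j ∧ Suf Γ u a ∧ (∀ i, 1 ≤ i → i < j → All Γ (ap (σ⁻¹ ^ i) a) u) ∧
    Pre Γ u (iv (ap (σ⁻¹ ^ j) a))

/-- canonical word -/
def cw (u : List (V × Bool)) (p q : ℕ) : List (Lt V) :=
  u.map Sum.inl ++ (List.replicate p (Sum.inr true) ++ List.replicate q (Sum.inr false))

theorem cw_length (u : List (V × Bool)) (p q : ℕ) : (cw u p q).length = u.length + p + q := by
  simp [cw]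
  ring

theorem cw_prod (u : List (V × Bool)) (p q : ℕ) : ((cw u p q).map (sym Γ φ)).prod =
    jj Γ φ (ev Γ u) * (tt Γ φ) ^ ((p : ℤ) - q) := by
  unfold cw
  rw [List.map_append, List.map_append, List.prod_append, List.prod_append, List.map_replicate,
    List.map_replicate, List.prod_replicate, List.prod_replicate, sym_t, sym_ti]
  congr 1
  · rw [List.map_map]
    unfold ev
    rw [map_list_prod, List.map_map]
    congr 1
    apply List.map_congr_left
    intro x _
    exact sym_inl Γ φ x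
  · rw [zpow_sub, zpow_natCast, zpow_natCast, inv_pow]

theorem Can_short {u : List (V × Bool)} {b : V × Bool} (h : Pre Γ u b) :
    ∃ v : List (V × Bool), v.length + 1 = u.length ∧ ev Γ u = gl Γ b * ev Γ v := by
  induction u with
  | nil => exact absurd h id
  | cons x u ih =>
    rcases h with rfl | ⟨h1, h2⟩
    · exact ⟨u, rfl, by simp⟩
    · obtain ⟨v, hv, he⟩ := ih h2
      refine ⟨x :: v, by simp [hv], ?_⟩
      rw [ev_cons, he, ev_cons, ← mul_assoc, ← mul_assoc, gl_comm Γ h1]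

theorem Can_short' {u : List (V × Bool)} (h : Can Γ u) :
    ∃ v : List (V × Bool), v.length + 2 = u.length ∧ ev Γ u = ev Γ v := by
  induction u with
  | nil => exact absurd h id
  | cons x u ih =>
    rcases h with h | h
    · obtain ⟨v, hv, he⟩ := ih h
      exact ⟨x :: v, by simp; omega, by rw [ev_cons, he, ev_cons]⟩
    · obtain ⟨v, hv, he⟩ := Can_short Γ h
      refine ⟨v, by simp; omega, ?_⟩
      rw [ev_cons, he, gl_iv, ← mul_assoc, mul_inv_cancel, one_mul]

theorem Suf_short {u : List (V × Bool)} {a : V × Bool} (h : Suf Γ u a) :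
    ∃ v : List (V × Bool), v.length + 1 = u.length ∧ ev Γ u = ev Γ v * gl Γ a := by
  induction u with
  | nil => exact absurd h id
  | cons x u ih =>
    rcases h with ⟨rfl, h1⟩ | h1
    · refine ⟨u, rfl, ?_⟩
      rw [ev_cons]
      clear ih
      induction u with
      | nil => simp
      | cons y u ih =>
        have h2 := ih fun z hz => h1 z (by simp [hz])
        rw [ev_cons, mul_assoc (gl Γ y), ← h2, ← mul_assoc, ← mul_assoc,
          gl_comm Γ (h1 y (by simp))]
    · obtain ⟨v, hv, he⟩ := ih h1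
      exact ⟨x :: v, by simp [hv], by rw [ev_cons, he, ev_cons, mul_assoc]⟩

theorem remove {u : List (V × Bool)} {a b : V × Bool} (hab : b ≠ a) (h : Pre Γ u b)
    (h' : Suf Γ u a) : ∃ v : List (V × Bool), v.length + 1 = u.length ∧
      ev Γ u = gl Γ b * ev Γ v ∧ Suf Γ v a ∧ ∀ c, All Γ c u → All Γ c v := by
  induction u with
  | nil => exact absurd h id
  | cons x u ih =>
    rcases h with rfl | ⟨h1, h2⟩
    · refine ⟨u, rfl, by simp, ?_, fun c hc z hz => hc z (by simp [hz])⟩
      rcases h' with ⟨h3, _⟩ | h3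
      · exact absurd h3 hab
      · exact h3
    · rcases h' with ⟨rfl, h3⟩ | h3
      · -- x = a, all of u in the link of a
        have key : ∃ v : List (V × Bool), v.length + 1 = u.length ∧ ev Γ u = gl Γ b * ev Γ v ∧
            ∀ c, All Γ c u → All Γ c v := by
          clear ih h3
          induction u with
          | nil => exact absurd h2 id
          | cons y u ih =>
            rcases h2 with rfl | ⟨h4, h5⟩
            · exact ⟨u, rfl, by simp, fun c hc z hz => hc z (by simp [hz])⟩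
            · obtain ⟨v, hv, he, hc⟩ := ih h5
              refine ⟨y :: v, by simp [hv], ?_, ?_⟩
              · rw [ev_cons, he, ev_cons, ← mul_assoc, ← mul_assoc, gl_comm Γ h4]
              · intro c h6 z hz
                rcases List.mem_cons.1 hz with rfl | hz
                · exact h6 z (by simp)
                · exact hc c (fun z hz => h6 z (by simp [hz])) z hz
        obtain ⟨v, hv, he, hc⟩ := key
        refine ⟨x :: v, by simp [hv], ?_, Or.inl ⟨rfl, hc x h3⟩, ?_⟩
        · rw [ev_cons, he, ev_cons, ← mul_assoc, ← mul_assoc, gl_comm Γ h1]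
        · intro c h6 z hz
          rcases List.mem_cons.1 hz with rfl | hz
          · exact h6 z (by simp)
          · exact hc c (fun z hz => h6 z (by simp [hz])) z hz
      · obtain ⟨v, hv, he, hs, hc⟩ := ih h2 h3
        refine ⟨x :: v, by simp [hv], ?_, Or.inr hs, ?_⟩
        · rw [ev_cons, he, ev_cons, ← mul_assoc, ← mul_assoc, gl_comm Γ h1]
        · intro c h6 z hz
          rcases List.mem_cons.1 hz with rfl | hz
          · exact h6 z (by simp)
          · exact hc c (fun z hz => h6 z (by simp [hz])) z hz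

theorem All_comm {c : V × Bool} {u : List (V × Bool)} (h : All Γ c u) :
    Commute (gl Γ c) (ev Γ u) := by
  induction u with
  | nil => simp
  | cons x u ih =>
    rw [ev_cons]
    exact Commute.mul_right (gl_comm Γ (h x (by simp))) (ih fun z hz => h z (by simp [hz]))

theorem Suf_mem {a : V × Bool} {u : List (V × Bool)} (h : Suf Γ u a) : a ∈ u := by
  induction u with
  | nil => exact absurd h id
  | cons x u ih =>
    rcases h with ⟨rfl, _⟩ | h
    · simp
    · exact List.mem_cons_of_mem _ (ih h)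

/-- the conjugation step -/
theorem conj_step {G : Type} [Group G] {U C C' c0 T : G} (h1 : T * C' * T⁻¹ = C)
    (h2 : Commute C c0) : C' * (U * C * c0⁻¹ * T) * C'⁻¹ = C' * U * c0⁻¹ * T := by
  have h3 : T * C'⁻¹ = C⁻¹ * T := by
    rw [← h1]
    group
  have h4 : C * c0⁻¹ * C⁻¹ = c0⁻¹ := by
    have h5 : Commute C c0⁻¹ := h2.inv_right
    rw [h5.eq]
    group
  calc C' * (U * C * c0⁻¹ * T) * C'⁻¹ = C' * U * C * c0⁻¹ * (T * C'⁻¹) := by group
    _ = C' * U * (C * c0⁻¹ * C⁻¹) * T := by rw [h3]; group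
    _ = C' * U * c0⁻¹ * T := by rw [h4]

theorem bad_conj {u : List (V × Bool)} {k : ℤ} (hb : Bad Γ (φ ^ (-k)) u) :
    ∃ v : List (V × Bool), v.length + 2 = u.length ∧
      IsConj (jj Γ φ (ev Γ u) * tt Γ φ ^ k) (jj Γ φ (ev Γ v) * tt Γ φ ^ k) := by
  obtain ⟨a, j, hj, hs, hall, hp⟩ := hb
  set σ : Equiv.Perm V := φ ^ (-k) with hσ
  have hne : iv (ap (σ⁻¹ ^ j) a) ≠ a := by
    intro h
    have := congrArg Prod.snd h
    simp [iv, ap] at this
  obtain ⟨v1, hv1, he1, hs1, -⟩ := remove Γ hne hp hs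
  obtain ⟨v, hv, he⟩ := Suf_short Γ hs1
  refine ⟨v, by omega, ?_⟩
  -- notation
  let c : ℕ → VRaag Γ φ := fun i => jj Γ φ (gl Γ (ap (σ⁻¹ ^ i) a))
  have hc : ∀ i, c i = jj Γ φ (gl Γ (ap (σ⁻¹ ^ i) a)) := fun i => rfl
  have hT : ∀ i, tt Γ φ ^ k * c (i + 1) * (tt Γ φ ^ k)⁻¹ = c i := by
    intro i
    have h1 := tz_ev Γ φ k [ap (σ⁻¹ ^ (i + 1)) a]
    simp only [ev_cons, ev_nil, mul_one, List.map_cons, List.map_nil] at h1
    rw [hc, h1, mul_assoc, mul_inv_cancel, mul_one, hc, ← hσ, ← ap_mul]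
    congr 4
    rw [pow_succ', mul_inv_cancel_left]
  have hcu : ∀ i, 1 ≤ i → i < j → Commute (c i) (jj Γ φ (ev Γ u)) := fun i h1 h2 =>
    (All_comm Γ (hall i h1 h2)).map (jj Γ φ)
  have hc0 : ∀ i, i < j → Commute (c i) (c 0) := by
    intro i h2
    rcases Nat.eq_zero_or_pos i with rfl | h1
    · exact Commute.refl _
    · have h3 := hall i h1 h2 a (Suf_mem Γ hs)
      have h4 : Γ.Adj (ap (σ⁻¹ ^ i) a).1 (ap (σ⁻¹ ^ 0) a).1 := by simpa using h3
      exact (show Commute (gl Γ (ap (σ⁻¹ ^ i) a)) (gl Γ (ap (σ⁻¹ ^ 0) a)) from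
        gl_comm Γ h4).map (jj Γ φ)
  have hQ : ∀ n, n < j → IsConj (jj Γ φ (ev Γ u) * tt Γ φ ^ k)
      (jj Γ φ (ev Γ u) * c n * (c 0)⁻¹ * tt Γ φ ^ k) := by
    intro n
    induction n with
    | zero =>
      intro _
      rw [mul_assoc (jj Γ φ (ev Γ u)), mul_inv_cancel, mul_one]
    | succ n ih =>
      intro hn
      refine (ih (by omega)).trans (isConj_iff.2 ⟨c (n + 1), ?_⟩)
      rw [conj_step (hT n) (hc0 n (by omega)), (hcu (n + 1) (by omega) hn).eq]
  obtain ⟨n, rfl⟩ : ∃ n, j = n + 1 := ⟨j - 1, by omega⟩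
  refine (hQ n (by omega)).trans (isConj_iff.2 ⟨c (n + 1), ?_⟩)
  rw [conj_step (hT n) (hc0 n (by omega))]
  congr 1
  have e0 : c 0 = jj Γ φ (gl Γ a) := by rw [hc]; simp
  rw [e0, he1, he, gl_iv, map_mul, map_mul, map_inv, ← hc (n + 1)]
  group

/-- the characterization, first half -/
theorem not_conjGeo {w : List (Lt V)} (hw : w ∈ ConjGeo (sym Γ φ)) :
    Tgeo φ w ∧ ¬ Can Γ (untw φ 1 w) ∧ ¬ Bad Γ (φ ^ (-tx w)) (untw φ 1 w) := by
  have hw' : ∀ w' : List (Lt V), IsConj (w.map (sym Γ φ)).prod (w'.map (sym Γ φ)).prod →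
    w.length ≤ w'.length := hw
  have hlen := len_eq φ w 1
  have htx := tx_eq w
  refine ⟨?_, ?_, ?_⟩
  · intro p q h
    have h1 := hw' (cw (untw φ 1 w) p q) (by
      rw [cw_prod, nf', tt_zpow_eq Γ φ h])
    rw [cw_length] at h1
    omega
  · intro h
    obtain ⟨v, hv, he⟩ := Can_short' Γ h
    have h1 := hw' (cw v (cp w) (cq w)) (by
      rw [cw_prod, nf', he, htx])
    rw [cw_length] at h1
    omega
  · intro h
    obtain ⟨v, hv, he⟩ := bad_conj Γ φ h
    have h1 := hw' (cw v (cp w) (cq w)) (by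
      rw [cw_prod, nf', ← htx]
      exact he)
    rw [cw_length] at h1
    omega

end Pool.R640.CG
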