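import Pool.Agent.R640.CG.Main2

set_option autoImplicit false

/-!
# Conjugacy geodesics in virtual RAAGs: regularity
-/

namespace Pool.R640.CG

section general
variable {α : Type}

/-- `n`-fold repetition -/
def rp (w : List α) : ℕ → List α
  | 0 => []
  | n + 1 => w ++ rp w n

theorem rp_prod {G : Type} [Group G] (f : α → G) (w : List α) (n : ℕ) :
    ((rp w n).map f).prod = (w.map f).prod ^ n := by
  induction n with
  | zero => simp [rp]
  | succ n ih => rw [rp, List.map_append, List.prod_append, ih, pow_succ']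

/-- A language is regular if membership only depends on a right-compatible finite-valued
function. -/
theorem regular_of_inv {σ : Type} [Finite σ] (L : Language α) (f : List α → σ)
    (h1 : ∀ w w' a, f w = f w' → f (w ++ [a]) = f (w' ++ [a]))
    (h2 : ∀ w w', f w = f w' → (w ∈ L ↔ w' ∈ L)) : L.IsRegular := by
  rw [Language.isRegular_iff_finite_range_leftQuotient]
  have h3 : ∀ (y w w' : List α), f w = f w' → f (w ++ y) = f (w' ++ y) := by
    intro y
    induction y with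
    | nil => intro w w' h; simpa using h
    | cons a y ih =>
      intro w w' h
      have := ih (w ++ [a]) (w' ++ [a]) (h1 w w' a h)
      simpa using this
  have h4 : ∀ w w', f w = f w' → L.leftQuotient w = L.leftQuotient w' := by
    intro w w' h
    ext y
    exact h2 _ _ (h3 y w w' h)
  classical
  let g : σ → Language α := fun s => if h : ∃ w, f w = s then L.leftQuotient h.choose else 0
  refine (Set.finite_range g).subset ?_
  rintro _ ⟨w, rfl⟩
  refine ⟨f w, ?_⟩
  have h5 : ∃ w', f w' = f w := ⟨w, rfl⟩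
  simp only [g, dif_pos h5]
  exact h4 _ _ h5.choose_spec

end general

variable {V : Type} (Γ : SimpleGraph V) (φ : Equiv.Perm V)

/-- twisted powers -/
def TW (σ : Equiv.Perm V) (u : List (V × Bool)) : ℕ → List (V × Bool)
  | 0 => []
  | n + 1 => u ++ (TW σ u n).map (ap σ)

theorem TW_length (σ : Equiv.Perm V) (u : List (V × Bool)) (n : ℕ) :
    (TW σ u n).length = n * u.length := by
  induction n with
  | zero => simp [TW]
  | succ n ih => simp [TW, ih]; ring

theorem untw_rp (w : List (Lt V)) (n : ℕ) :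
    untw φ 1 (rp w n) = TW (φ ^ (-tx w)) (untw φ 1 w) n := by
  induction n with
  | zero => simp [rp, TW, untw]
  | succ n ih => rw [rp, untw_append, one_mul, untw_map' φ _ (rp w n), ih, TW]

variable {Γ}

theorem Pre_TW {σ : Equiv.Perm V} (hσ : σ ∈ Aut Γ) (u : List (V × Bool)) (n : ℕ) :
    ∀ b, Pre Γ (TW σ u n) b → ∃ j, Pre Γ u (ap (σ⁻¹ ^ j) b) ∧
      ∀ i, i < j → All Γ (ap (σ⁻¹ ^ i) b) u := by
  induction n with
  | zero => intro b h; exact absurd h id
  | succ n ih =>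
    intro b h
    rw [TW, Pre_append] at h
    rcases h with h | ⟨h1, h2⟩
    · exact ⟨0, by simpa using h, fun i hi => absurd hi (Nat.not_lt_zero i)⟩
    · have hb : b = ap σ (ap σ⁻¹ b) := by rw [← ap_mul]; simp
      rw [hb, Pre_ap hσ] at h2
      obtain ⟨j, h3, h4⟩ := ih _ h2
      refine ⟨j + 1, by rw [pow_succ, ap_mul]; exact h3, ?_⟩
      intro i hi
      rcases i with _ | i
      · simpa using h1
      · rw [pow_succ, ap_mul]
        exact h4 i (by omega)

theorem Can_TW {σ : Equiv.Perm V} (hσ : σ ∈ Aut Γ) {u : List (V × Bool)} (hu : ¬ Can Γ u)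
    (hb : ¬ Bad Γ σ u) (n : ℕ) : ¬ Can Γ (TW σ u n) := by
  induction n with
  | zero => exact id
  | succ n ih =>
    rw [TW, Can_append, Can_ap hσ]
    rintro (h | h | ⟨a, h1, h2⟩)
    · exact hu h
    · exact ih h
    · have h3 : iv a = ap σ (ap σ⁻¹ (iv a)) := by rw [← ap_mul]; simp
      rw [h3, Pre_ap hσ] at h2
      obtain ⟨j, h4, h5⟩ := Pre_TW hσ u n _ h2
      refine hb ⟨a, j + 1, by omega, h1, ?_, ?_⟩
      · intro i hi1 hi2
        obtain ⟨i, rfl⟩ : ∃ i', i = i' + 1 := ⟨i - 1, by omega⟩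
        have h6 := h5 i (by omega)
        rw [← ap_mul, ← pow_succ] at h6
        exact h6
      · rw [← ap_mul, ← pow_succ] at h4
        exact h4

variable (Γ)

theorem untw_length (σ : Equiv.Perm V) (w : List (Lt V)) :
    (untw φ σ w).length = (untw φ 1 w).length := by
  rw [untw_map', List.length_map]

theorem rp_untw_length (w : List (Lt V)) (n : ℕ) :
    (untw φ 1 (rp w n)).length = n * (untw φ 1 w).length := by
  rw [untw_rp, TW_length]

/-- the characterization, second half -/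
theorem conjGeo_of (hφ : φ ∈ Aut Γ) {w : List (Lt V)} (h1 : Tgeo φ w)
    (h2 : ¬ Can Γ (untw φ 1 w)) (h3 : ¬ Bad Γ (φ ^ (-tx w)) (untw φ 1 w)) :
    w ∈ ConjGeo (sym Γ φ) := by
  intro w' hc
  have hT : cp w + cq w ≤ cp w' + cq w' := by
    apply h1
    have h4 := isConj_iff_eq.1 ((tex Γ φ).map_isConj hc)
    rw [tex_word, tex_word] at h4
    rw [← tx_eq]
    exact (Multiplicative.ofAdd.injective h4).symm
  have hN : (untw φ 1 w).length ≤ (untw φ 1 w').length := by
    obtain ⟨c, hc⟩ := isConj_iff.1 hc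
    obtain ⟨wh, hwh⟩ := exists_word Γ φ c
    by_contra hlt
    push Not at hlt
    set n := 2 * (untw φ 1 wh).length + 1 with hn
    have h4 : ((wh ++ rp w n).map (sym Γ φ)).prod = ((rp w' n ++ wh).map (sym Γ φ)).prod := by
      rw [List.map_append, List.prod_append, List.map_append, List.prod_append, rp_prod, rp_prod,
        hwh, ← hc, conj_pow, inv_mul_cancel_right]
    have h5 := ev_eq_of_prod_eq Γ φ hφ h4
    rw [untw_append, one_mul, ev_append, untw_map' φ _ (rp w n), untw_rp] at h5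
    have h6 : ev Γ ((TW (φ ^ (-tx w)) (untw φ 1 w) n).map (ap (φ ^ (-tx wh)))) =
        ev Γ (((untw φ 1 wh).map iv).reverse ++ untw φ 1 (rp w' n ++ wh)) := by
      rw [ev_append, ev_inv, ← h5, inv_mul_cancel_left]
    have h7 := geodesic Γ (by
      rw [Can_ap ((Aut Γ).zpow_mem hφ _)]
      exact Can_TW ((Aut Γ).zpow_mem hφ _) h2 h3 n) h6
    rw [List.length_map, TW_length, List.length_append, List.length_reverse, List.length_map,
      untw_append, List.length_append, untw_length φ (1 * φ ^ (-tx (rp w' n))) wh, rp_untw_length] at h7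
    have h8 : n * ((untw φ 1 w').length + 1) ≤ n * (untw φ 1 w).length :=
      Nat.mul_le_mul_left _ hlt
    rw [mul_add, mul_one] at h8
    omega
  rw [len_eq φ w 1, len_eq φ w' 1]
  omega

theorem mem_iff (hφ : φ ∈ Aut Γ) (w : List (Lt V)) : w ∈ ConjGeo (sym Γ φ) ↔
    Tgeo φ w ∧ ¬ Can Γ (untw φ 1 w) ∧ ¬ Bad Γ (φ ^ (-tx w)) (untw φ 1 w) :=
  ⟨fun h => not_conjGeo Γ φ h, fun h => conjGeo_of Γ φ hφ h.1 h.2.1 h.2.2⟩

theorem Suf_snoc (u : List (V × Bool)) (y a : V × Bool) :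
    Suf Γ (u ++ [y]) a ↔ (Suf Γ u a ∧ Γ.Adj a.1 y.1) ∨ y = a := by
  rw [Suf_append]
  simp [Suf, All]

theorem Pre_snoc (u : List (V × Bool)) (y b : V × Bool) :
    Pre Γ (u ++ [y]) b ↔ Pre Γ u b ∨ (All Γ b u ∧ y = b) := by
  rw [Pre_append]
  simp [Pre]

theorem All_snoc (u : List (V × Bool)) (y b : V × Bool) :
    All Γ b (u ++ [y]) ↔ All Γ b u ∧ Γ.Adj b.1 y.1 := by
  rw [All_append]
  simp [All]

theorem Can_snoc (u : List (V × Bool)) (y : V × Bool) :
    Can Γ (u ++ [y]) ↔ Can Γ u ∨ Suf Γ u (iv y) := by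
  rw [Can_append]
  simp only [Can, Pre, false_or, or_false, and_false]
  constructor
  · rintro (h | ⟨a, h1, rfl⟩)
    · exact Or.inl h
    · rw [iv_iv]; exact Or.inr h1
  · rintro (h | h)
    · exact Or.inl h
    · exact Or.inr ⟨iv y, h, (iv_iv y).symm⟩

/-- the state of a word -/
noncomputable def stt (w : List (Lt V)) : Equiv.Perm V × Fin (orderOf φ + 1) × Fin (orderOf φ + 1) ×
    Set (V × Bool) × Set (V × Bool) × Set (V × Bool) × Prop :=
  (φ ^ (-tx w), ⟨min (cp w) (orderOf φ), by omega⟩, ⟨min (cq w) (orderOf φ), by omega⟩,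
    {a | Suf Γ (untw φ 1 w) a}, {a | Pre Γ (untw φ 1 w) a}, {a | All Γ a (untw φ 1 w)},
    Can Γ (untw φ 1 w))

theorem stt_eq_iff (w w' : List (Lt V)) : stt Γ φ w = stt Γ φ w' ↔
    φ ^ (-tx w) = φ ^ (-tx w') ∧ min (cp w) (orderOf φ) = min (cp w') (orderOf φ) ∧
    min (cq w) (orderOf φ) = min (cq w') (orderOf φ) ∧
    (∀ a, Suf Γ (untw φ 1 w) a ↔ Suf Γ (untw φ 1 w') a) ∧
    (∀ a, Pre Γ (untw φ 1 w) a ↔ Pre Γ (untw φ 1 w') a) ∧
    (∀ a, All Γ a (untw φ 1 w) ↔ All Γ a (untw φ 1 w')) ∧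
    (Can Γ (untw φ 1 w) ↔ Can Γ (untw φ 1 w')) := by
  unfold stt
  simp only [Prod.mk.injEq, Fin.mk.injEq, Set.ext_iff, Set.mem_ofPred_eq, eq_iff_iff]

theorem stt_step (w w' : List (Lt V)) (a : Lt V) (h : stt Γ φ w = stt Γ φ w') :
    stt Γ φ (w ++ [a]) = stt Γ φ (w' ++ [a]) := by
  rw [stt_eq_iff] at h ⊢
  obtain ⟨h1, h2, h3, h4, h5, h6, h7⟩ := h
  rcases a with x | (_ | _)
  · have e : ∀ w : List (Lt V), untw φ 1 (w ++ [Sum.inl x]) =
        untw φ 1 w ++ [ap (φ ^ (-tx w)) x] := by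
      intro w
      rw [untw_append]
      simp [untw]
    have e1 : ∀ w : List (Lt V), tx (w ++ [Sum.inl x]) = tx w := by
      intro w; rw [tx_append]; simp [tx]
    have e2 : ∀ w : List (Lt V), cp (w ++ [Sum.inl x]) = cp w := by
      intro w; rw [cp_append]; simp [cp]
    have e3 : ∀ w : List (Lt V), cq (w ++ [Sum.inl x]) = cq w := by
      intro w; rw [cq_append]; simp [cq]
    rw [e, e, e1, e1, e2, e2, e3, e3, h1]
    refine ⟨rfl, h2, h3, ?_, ?_, ?_, ?_⟩
    · intro a; rw [Suf_snoc, Suf_snoc, h4]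
    · intro a; rw [Pre_snoc, Pre_snoc, h5, h6]
    · intro a; rw [All_snoc, All_snoc, h6]
    · rw [Can_snoc, Can_snoc, h7, h4]
  · have e : ∀ w : List (Lt V), untw φ 1 (w ++ [Sum.inr false]) = untw φ 1 w := by
      intro w
      rw [untw_append]
      simp [untw]
    have e1 : ∀ w : List (Lt V), tx (w ++ [Sum.inr false]) = tx w + (-1) := by
      intro w; rw [tx_append]; simp [tx]
    have e2 : ∀ w : List (Lt V), cp (w ++ [Sum.inr false]) = cp w := by
      intro w; rw [cp_append]; simp [cp]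
    have e3 : ∀ w : List (Lt V), cq (w ++ [Sum.inr false]) = cq w + 1 := by
      intro w; rw [cq_append]; simp [cq]
    rw [e, e, e1, e1, e2, e2, e3, e3]
    refine ⟨?_, h2, by omega, h4, h5, h6, h7⟩
    rw [neg_add, neg_add, zpow_add, zpow_add, h1]
  · have e : ∀ w : List (Lt V), untw φ 1 (w ++ [Sum.inr true]) = untw φ 1 w := by
      intro w
      rw [untw_append]
      simp [untw]
    have e1 : ∀ w : List (Lt V), tx (w ++ [Sum.inr true]) = tx w + 1 := by
      intro w; rw [tx_append]; simp [tx]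
    have e2 : ∀ w : List (Lt V), cp (w ++ [Sum.inr true]) = cp w + 1 := by
      intro w; rw [cp_append]; simp [cp]
    have e3 : ∀ w : List (Lt V), cq (w ++ [Sum.inr true]) = cq w := by
      intro w; rw [cq_append]; simp [cq]
    rw [e, e, e1, e1, e2, e2, e3, e3]
    refine ⟨?_, by omega, h3, h4, h5, h6, h7⟩
    rw [neg_add, neg_add, zpow_add, zpow_add, h1]

theorem Tgeo_lt [Finite V] {w : List (Lt V)} (h : Tgeo φ w) :
    cp w < orderOf φ ∧ cq w < orderOf φ := by
  have hm : 0 < orderOf φ := orderOf_pos φ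
  constructor
  · by_contra hlt
    push Not at hlt
    have h1 := h (cp w - orderOf φ) (cq w) (by
      rw [tx_eq, Nat.cast_sub hlt]
      push_cast
      simp)
    omega
  · by_contra hlt
    push Not at hlt
    have h1 := h (cp w) (cq w - orderOf φ) (by
      rw [tx_eq, Nat.cast_sub hlt]
      push_cast
      simp)
    omega

theorem Tgeo_congr [Finite V] {w w' : List (Lt V)} (h : Tgeo φ w)
    (h2 : min (cp w) (orderOf φ) = min (cp w') (orderOf φ))
    (h3 : min (cq w) (orderOf φ) = min (cq w') (orderOf φ)) : Tgeo φ w' := by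
  obtain ⟨h4, h5⟩ := Tgeo_lt φ h
  have h6 : cp w' = cp w := by omega
  have h7 : cq w' = cq w := by omega
  have h8 : tx w' = tx w := by rw [tx_eq, tx_eq, h6, h7]
  intro p q h
  rw [h6, h7]
  rw [h8] at h
  exact ‹Tgeo φ w› p q h

theorem stt_mem [Finite V] (hφ : φ ∈ Aut Γ) (w w' : List (Lt V)) (h : stt Γ φ w = stt Γ φ w') :
    w ∈ ConjGeo (sym Γ φ) ↔ w' ∈ ConjGeo (sym Γ φ) := by
  rw [mem_iff Γ φ hφ, mem_iff Γ φ hφ]
  rw [stt_eq_iff] at h
  obtain ⟨h1, h2, h3, h4, h5, h6, h7⟩ := h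
  have hb : Bad Γ (φ ^ (-tx w)) (untw φ 1 w) ↔ Bad Γ (φ ^ (-tx w')) (untw φ 1 w') := by
    unfold Bad
    simp only [h1, h4, h5, h6]
  rw [hb, h7]
  have hT : Tgeo φ w ↔ Tgeo φ w' := ⟨fun h => Tgeo_congr φ h h2 h3,
    fun h => Tgeo_congr φ h h2.symm h3.symm⟩
  rw [hT]

theorem regular_sym [Finite V] (hφ : φ ∈ Aut Γ) : (ConjGeo (sym Γ φ)).IsRegular :=
  regular_of_inv _ (stt Γ φ) (stt_step Γ φ) (stt_mem Γ φ hφ)

theorem regular_sub [Finite V] (hφ : φ ∈ Aut Γ) :
    (ConjGeo (Subtype.val : Xhat Γ φ → VRaag Γ φ)).IsRegular := by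
  have hs : ∀ y : Xhat Γ φ, ∃ x : Lt V, sym Γ φ x = y.1 := by
    rintro ⟨g, (⟨v, (rfl | rfl)⟩ | rfl | rfl)⟩
    · exact ⟨Sum.inl (v, true), rfl⟩
    · exact ⟨Sum.inl (v, false), rfl⟩
    · exact ⟨Sum.inr true, rfl⟩
    · exact ⟨Sum.inr false, rfl⟩
  choose s hs using hs
  have hx : ∀ x : Lt V, ∃ y : Xhat Γ φ, y.1 = sym Γ φ x := by
    intro x
    rcases x with ⟨v, b⟩ | (_ | _)
    · cases b
      · exact ⟨⟨_, Or.inl ⟨v, Or.inr rfl⟩⟩, rfl⟩
      · exact ⟨⟨_, Or.inl ⟨v, Or.inl rfl⟩⟩, rfl⟩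
    · exact ⟨⟨_, Or.inr (Or.inr rfl)⟩, rfl⟩
    · exact ⟨⟨_, Or.inr (Or.inl rfl)⟩, rfl⟩
  choose y hy using hx
  have h1 : ∀ w : List (Xhat Γ φ), (w.map s).map (sym Γ φ) = w.map Subtype.val := by
    intro w
    rw [List.map_map]
    exact List.map_congr_left fun a _ => hs a
  have h2 : ∀ w : List (Lt V), (w.map y).map Subtype.val = w.map (sym Γ φ) := by
    intro w
    rw [List.map_map]
    exact List.map_congr_left fun a _ => hy a
  obtain ⟨σ, _, M, hM⟩ := regular_sym Γ φ hφ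
  refine ⟨σ, inferInstance, M.comap s, ?_⟩
  rw [DFA.accepts_comap, hM]
  ext w
  change w.map s ∈ ConjGeo (sym Γ φ) ↔ w ∈ ConjGeo (Subtype.val : Xhat Γ φ → VRaag Γ φ)
  constructor
  · intro h w' hc
    have := h (w'.map s) (by rw [h1, h1]; exact hc)
    simpa using this
  · intro h w' hc
    have := h (w'.map y) (by rw [h2, ← h1 w]; exact hc)
    simpa using this

end Pool.R640.CG
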