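import Mathlib

set_option autoImplicit false

/-!
# Geodesics in right-angled Artin groups

Words with no cancellation pair are geodesic.
-/

namespace Pool.R640.CG

variable {V : Type}

/-- The defining relators of the right-angled Artin group. -/
def rels (Γ : SimpleGraph V) : Set (FreeGroup V) :=
  {r | ∃ u v : V, Γ.Adj u v ∧
    r = FreeGroup.of u * FreeGroup.of v * (FreeGroup.of u)⁻¹ * (FreeGroup.of v)⁻¹}

abbrev Raag (Γ : SimpleGraph V) : Type := PresentedGroup (rels Γ)

section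
variable (Γ : SimpleGraph V)

/-- generator -/
def gn (v : V) : Raag Γ := PresentedGroup.of v

theorem gn_comm {u v : V} (h : Γ.Adj u v) : gn Γ u * gn Γ v = gn Γ v * gn Γ u := by
  have h1 : (PresentedGroup.mk (rels Γ)) (FreeGroup.of u * FreeGroup.of v * (FreeGroup.of u)⁻¹ *
      (FreeGroup.of v)⁻¹) = 1 :=
    PresentedGroup.one_of_mem ⟨u, v, h, rfl⟩
  simp only [map_mul, map_inv] at h1
  have h2 : gn Γ u * gn Γ v * (gn Γ u)⁻¹ * (gn Γ v)⁻¹ = 1 := h1
  rw [mul_inv_eq_one] at h2
  rw [← mul_inv_eq_iff_eq_mul]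
  exact h2

/-- value of a letter -/
def gl (x : V × Bool) : Raag Γ := if x.2 then gn Γ x.1 else (gn Γ x.1)⁻¹

/-- value of a word -/
def ev (u : List (V × Bool)) : Raag Γ := (u.map (gl Γ)).prod

@[simp] theorem ev_nil : ev Γ [] = 1 := rfl
@[simp] theorem ev_cons (x : V × Bool) (u : List (V × Bool)) :
    ev Γ (x :: u) = gl Γ x * ev Γ u := by simp [ev]
@[simp] theorem ev_append (u v : List (V × Bool)) : ev Γ (u ++ v) = ev Γ u * ev Γ v := by
  simp [ev]

/-- inverse letter -/
def iv (x : V × Bool) : V × Bool := (x.1, !x.2)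

@[simp] theorem iv_iv (x : V × Bool) : iv (iv x) = x := by simp [iv]
@[simp] theorem iv_fst (x : V × Bool) : (iv x).1 = x.1 := rfl

theorem gl_iv (x : V × Bool) : gl Γ (iv x) = (gl Γ x)⁻¹ := by
  rcases x with ⟨v, b⟩
  cases b <;> simp [gl, iv]

theorem gl_comm {x y : V × Bool} (h : Γ.Adj x.1 y.1) : gl Γ x * gl Γ y = gl Γ y * gl Γ x := by
  have h1 : Commute (gn Γ x.1) (gn Γ y.1) := gn_comm Γ h
  unfold gl
  split_ifs
  · exact h1
  · exact h1.inv_right
  · exact h1.inv_left
  · exact h1.inv_inv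

theorem ev_inv (u : List (V × Bool)) : ev Γ ((u.map iv).reverse) = (ev Γ u)⁻¹ := by
  induction u with
  | nil => simp
  | cons x u ih => simp [ih, gl_iv]

/-- the subgroup generated by the link of `v` -/
def Lk (v : V) : Subgroup (Raag Γ) := Subgroup.closure (gn Γ '' {u | Γ.Adj v u})

theorem mem_Lk {v : V} {u : V} (h : Γ.Adj v u) : gn Γ u ∈ Lk Γ v :=
  Subgroup.subset_closure ⟨u, h, rfl⟩

theorem Lk_comm {v : V} {g : Raag Γ} (h : g ∈ Lk Γ v) : Commute (gn Γ v) g := by
  induction h using Subgroup.closure_induction with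
  | mem x hx =>
    obtain ⟨u, hu, rfl⟩ := hx
    exact gn_comm Γ hu
  | one => exact Commute.one_right _
  | mul x y _ _ hx hy => exact hx.mul_right hy
  | inv x _ hx => exact hx.inv_right

/-- every element of the link subgroup is the value of a word with letters in the link -/
theorem Lk_word {v : V} {g : Raag Γ} (h : g ∈ Lk Γ v) :
    ∃ u : List (V × Bool), (∀ z ∈ u, Γ.Adj v z.1) ∧ ev Γ u = g := by
  induction h using Subgroup.closure_induction with
  | mem x hx =>
    obtain ⟨u, hu, rfl⟩ := hx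
    exact ⟨[(u, true)], by simpa using hu, by simp [gl]⟩
  | one => exact ⟨[], by simp, by simp⟩
  | mul x y _ _ hx hy =>
    obtain ⟨u1, h1, e1⟩ := hx
    obtain ⟨u2, h2, e2⟩ := hy
    refine ⟨u1 ++ u2, ?_, by simp [e1, e2]⟩
    intro z hz
    rcases List.mem_append.1 hz with h | h
    · exact h1 z h
    · exact h2 z h
  | inv x _ hx =>
    obtain ⟨u1, h1, e1⟩ := hx
    refine ⟨(u1.map iv).reverse, ?_, by rw [ev_inv, e1]⟩
    intro z hz
    simp only [List.mem_reverse, List.mem_map] at hz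
    obtain ⟨y, hy, rfl⟩ := hz
    exact h1 y hy

/-- hyperplanes -/
abbrev Hp : Type := Σ v : V, Quotient (QuotientGroup.rightRel (Lk Γ v))

/-- hyperplane of type v through g -/
def hp (v : V) (g : Raag Γ) : Hp Γ := ⟨v, Quotient.mk _ g⟩

theorem hp_eq {v : V} {g g' : Raag Γ} : hp Γ v g = hp Γ v g' ↔ g' * g⁻¹ ∈ Lk Γ v := by
  unfold hp
  rw [Sigma.mk.injEq]
  simp only [heq_eq_eq, true_and]
  rw [Quotient.eq]
  exact QuotientGroup.rightRel_apply

theorem hp_left {v : V} {g h : Raag Γ} (hh : h ∈ Lk Γ v) : hp Γ v (h * g) = hp Γ v g := by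
  symm
  rw [hp_eq]
  simpa using hh

theorem hp_fst {v v' : V} {g g' : Raag Γ} (h : hp Γ v g = hp Γ v' g') : v = v' :=
  congrArg Sigma.fst h

open Classical in
/-- indicator -/
noncomputable def dl (k : Hp Γ) : Hp Γ → ℤ := fun h => if h = k then 1 else 0

/-- the state space -/
abbrev St : Type := (Hp Γ → ℤ) × Raag Γ

/-- action of a generator -/
noncomputable def stp (v : V) : Equiv.Perm (St Γ) where
  toFun s := (s.1 + dl Γ (hp Γ v s.2), gn Γ v * s.2)
  invFun s := (s.1 - dl Γ (hp Γ v ((gn Γ v)⁻¹ * s.2)), (gn Γ v)⁻¹ * s.2)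
  left_inv s := by
    rcases s with ⟨f, g⟩
    simp
  right_inv s := by
    rcases s with ⟨f, g⟩
    simp

theorem stp_comm {u v : V} (h : Γ.Adj u v) : stp Γ u * stp Γ v = stp Γ v * stp Γ u := by
  apply Equiv.ext
  rintro ⟨f, g⟩
  simp only [Equiv.Perm.mul_apply]
  change (f + dl Γ (hp Γ v g) + dl Γ (hp Γ u (gn Γ v * g)), gn Γ u * (gn Γ v * g)) =
    (f + dl Γ (hp Γ u g) + dl Γ (hp Γ v (gn Γ u * g)), gn Γ v * (gn Γ u * g))
  rw [hp_left Γ (mem_Lk Γ h), hp_left Γ (mem_Lk Γ h.symm), ← mul_assoc, ← mul_assoc, gn_comm Γ h]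
  congr 1
  abel

/-- the representation -/
noncomputable def rep : Raag Γ →* Equiv.Perm (St Γ) :=
  PresentedGroup.toGroup (f := stp Γ) (by
    rintro r ⟨u, v, h, rfl⟩
    simp only [map_mul, map_inv, FreeGroup.lift_apply_of]
    rw [mul_inv_eq_one, mul_inv_eq_iff_eq_mul]
    exact stp_comm Γ h)

theorem rep_gn (v : V) : rep Γ (gn Γ v) = stp Γ v := PresentedGroup.toGroup.of _

/-- hyperplane crossed by the letter `x` in front of the word `u` -/
def hy (x : V × Bool) (u : List (V × Bool)) : Hp Γ :=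
  hp Γ x.1 (if x.2 then ev Γ u else ev Γ (x :: u))

/-- sign -/
def sg (x : V × Bool) : ℤ := if x.2 then 1 else -1

/-- signed crossing function -/
noncomputable def Fc : List (V × Bool) → (Hp Γ → ℤ)
  | [] => 0
  | x :: u => Fc u + sg x • dl Γ (hy Γ x u)

theorem rep_ev (u : List (V × Bool)) : rep Γ (ev Γ u) (0, 1) = (Fc Γ u, ev Γ u) := by
  induction u with
  | nil => simp [Fc]
  | cons x u ih =>
    rw [ev_cons, map_mul, Equiv.Perm.mul_apply, ih]
    rcases x with ⟨v, b⟩
    cases b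
    · have h1 : gl Γ (v, false) = (gn Γ v)⁻¹ := by simp [gl]
      rw [h1, map_inv, rep_gn]
      change (Fc Γ u - dl Γ (hp Γ v ((gn Γ v)⁻¹ * ev Γ u)), (gn Γ v)⁻¹ * ev Γ u) = _
      simp only [Fc, hy, sg, ev_cons, h1, Bool.false_eq_true, if_false, neg_smul, one_smul]
      rw [sub_eq_add_neg]
    · have h1 : gl Γ (v, true) = gn Γ v := by simp [gl]
      rw [h1, rep_gn]
      change (Fc Γ u + dl Γ (hp Γ v (ev Γ u)), gn Γ v * ev Γ u) = _
      simp only [Fc, hy, sg, if_true, one_smul]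

theorem Fc_eq {u u' : List (V × Bool)} (h : ev Γ u = ev Γ u') : Fc Γ u = Fc Γ u' := by
  have h1 := rep_ev Γ u
  rw [h, rep_ev] at h1
  exact (congrArg Prod.fst h1).symm

/-- list of hyperplanes -/
def HL : List (V × Bool) → List (Hp Γ)
  | [] => []
  | x :: u => hy Γ x u :: HL u

theorem HL_length (u : List (V × Bool)) : (HL Γ u).length = u.length := by
  induction u with
  | nil => rfl
  | cons x u ih => simp [HL, ih]

theorem Fc_supp {u : List (V × Bool)} {k : Hp Γ} (h : Fc Γ u k ≠ 0) : k ∈ HL Γ u := by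
  induction u with
  | nil => simp [Fc] at h
  | cons x u ih =>
    by_cases h1 : k = hy Γ x u
    · simp [HL, h1]
    · refine List.mem_cons_of_mem _ (ih ?_)
      intro h2
      apply h
      simp [Fc, h2, dl, h1]

theorem sg_ne (x : V × Bool) : sg x ≠ 0 := by
  unfold sg
  split_ifs <;> decide

theorem Fc_ne {u : List (V × Bool)} (hu : (HL Γ u).Nodup) {k : Hp Γ} (h : k ∈ HL Γ u) :
    Fc Γ u k ≠ 0 := by
  induction u with
  | nil => simp [HL] at h
  | cons x u ih =>
    have hu' := hu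
    simp only [HL, List.nodup_cons] at hu'
    by_cases h1 : k = hy Γ x u
    · subst h1
      have h2 : Fc Γ u (hy Γ x u) = 0 := by
        by_contra h3
        exact hu'.1 (Fc_supp Γ h3)
      simp [Fc, h2, dl, sg_ne]
    · have h2 : k ∈ HL Γ u := by
        rcases List.mem_cons.1 h with h | h
        · exact absurd h h1
        · exact h
      have h3 := ih hu'.2 h2
      simpa [Fc, dl, h1] using h3

open Classical in
theorem len_le_of_nodup {u u' : List (V × Bool)} (hu : (HL Γ u).Nodup) (h : ev Γ u = ev Γ u') :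
    u.length ≤ u'.length := by
  have h1 := Fc_eq Γ h
  have h2 : (HL Γ u).toFinset ⊆ (HL Γ u').toFinset := by
    intro k hk
    rw [List.mem_toFinset] at hk ⊢
    apply Fc_supp
    rw [← h1]
    exact Fc_ne Γ hu hk
  have h3 := Finset.card_le_card h2
  rw [List.toFinset_card_of_nodup hu, HL_length] at h3
  exact h3.trans ((List.toFinset_card_le _).trans (HL_length Γ u').le)

/-- all letters of u are in the link of x -/
def All (x : V × Bool) (u : List (V × Bool)) : Prop := ∀ z ∈ u, Γ.Adj x.1 z.1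

/-- `b` occurs in `u` with all earlier letters in its link -/
def Pre : List (V × Bool) → (V × Bool) → Prop
  | [], _ => False
  | x :: v, b => x = b ∨ (Γ.Adj b.1 x.1 ∧ Pre v b)

/-- `a` occurs in `u` with all later letters in its link -/
def Suf : List (V × Bool) → (V × Bool) → Prop
  | [], _ => False
  | x :: u, a => (x = a ∧ All Γ a u) ∨ Suf u a

/-- there is a cancellation pair -/
def Can : List (V × Bool) → Prop
  | [] => False
  | x :: u => Can u ∨ Pre Γ u (iv x)

theorem Pre_of (b : V × Bool) (v1 v2 : List (V × Bool)) (h : All Γ b v1) :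
    Pre Γ (v1 ++ b :: v2) b := by
  induction v1 with
  | nil => simp [Pre]
  | cons x v ih =>
    refine Or.inr ⟨h x (by simp), ih fun z hz => h z (by simp [hz])⟩

theorem Pre_append (v1 v2 : List (V × Bool)) (b : V × Bool) :
    Pre Γ (v1 ++ v2) b ↔ Pre Γ v1 b ∨ (All Γ b v1 ∧ Pre Γ v2 b) := by
  induction v1 with
  | nil => simp [Pre, All]
  | cons x v ih =>
    simp only [List.cons_append, Pre, ih, All, List.mem_cons, forall_eq_or_imp]
    tauto

theorem All_append (a : V × Bool) (u v : List (V × Bool)) :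
    All Γ a (u ++ v) ↔ All Γ a u ∧ All Γ a v := by
  simp only [All, List.mem_append]
  constructor
  · intro h
    exact ⟨fun z hz => h z (Or.inl hz), fun z hz => h z (Or.inr hz)⟩
  · rintro ⟨h1, h2⟩ z (hz | hz)
    · exact h1 z hz
    · exact h2 z hz

theorem Suf_append (u v : List (V × Bool)) (a : V × Bool) :
    Suf Γ (u ++ v) a ↔ (Suf Γ u a ∧ All Γ a v) ∨ Suf Γ v a := by
  induction u with
  | nil => simp [Suf]
  | cons x u ih =>
    simp only [List.cons_append, Suf, ih, All_append]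
    tauto

theorem Can_append (u v : List (V × Bool)) :
    Can Γ (u ++ v) ↔ Can Γ u ∨ Can Γ v ∨ ∃ a, Suf Γ u a ∧ Pre Γ v (iv a) := by
  induction u with
  | nil => simp [Can, Suf]
  | cons x u ih =>
    simp only [List.cons_append, Can, ih, Pre_append, Suf]
    constructor
    · rintro ((h | h | ⟨a, h1, h2⟩) | (h | ⟨h1, h2⟩))
      · exact Or.inl (Or.inl h)
      · exact Or.inr (Or.inl h)
      · exact Or.inr (Or.inr ⟨a, Or.inr h1, h2⟩)
      · exact Or.inl (Or.inr h)
      · exact Or.inr (Or.inr ⟨x, Or.inl ⟨rfl, h1⟩, h2⟩)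
    · rintro ((h | h) | (h | ⟨a, (⟨rfl, h1⟩ | h1), h2⟩))
      · exact Or.inl (Or.inl h)
      · exact Or.inr (Or.inl h)
      · exact Or.inl (Or.inr (Or.inl h))
      · exact Or.inr (Or.inr ⟨h1, h2⟩)
      · exact Or.inl (Or.inr (Or.inr ⟨a, h1, h2⟩))

open Classical in
/-- retraction to the link of v, on generators -/
noncomputable def rgn (v u : V) : Raag Γ := if Γ.Adj v u then gn Γ u else 1

/-- retraction -/
noncomputable def ret (v : V) : Raag Γ →* Raag Γ :=
  PresentedGroup.toGroup (f := rgn Γ v) (by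
    rintro r ⟨a, b, h, rfl⟩
    simp only [map_mul, map_inv, FreeGroup.lift_apply_of]
    rw [mul_inv_eq_one, mul_inv_eq_iff_eq_mul]
    unfold rgn
    split_ifs
    · exact gn_comm Γ h
    · simp
    · simp
    · simp)

theorem ret_gn (v u : V) : ret Γ v (gn Γ u) = rgn Γ v u := PresentedGroup.toGroup.of _

theorem ret_Lk {v : V} {g : Raag Γ} (h : g ∈ Lk Γ v) : ret Γ v g = g := by
  induction h using Subgroup.closure_induction with
  | mem x hx =>
    obtain ⟨u, hu, rfl⟩ := hx
    rw [ret_gn, rgn, if_pos (show Γ.Adj v u from hu)]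
  | one => simp
  | mul x y _ _ hx hy => rw [map_mul, hx, hy]
  | inv x _ hx => rw [map_inv, hx]

open Classical in
theorem ret_ev (v : V) (u : List (V × Bool)) :
    ret Γ v (ev Γ u) = ev Γ (u.filter fun z => Γ.Adj v z.1) := by
  induction u with
  | nil => simp
  | cons x u ih =>
    rw [ev_cons, map_mul, ih]
    have h1 : ret Γ v (gl Γ x) = if Γ.Adj v x.1 then gl Γ x else 1 := by
      rcases x with ⟨w, b⟩
      by_cases h : Γ.Adj v w <;> cases b <;> simp [gl, ret_gn, rgn, h]
    rw [h1]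
    by_cases h : Γ.Adj v x.1
    · simp [h]
    · simp [h]

/-- If `u` is a nodup word with value in the link subgroup, all its letters are in the link. -/
theorem all_of_nodup {x : V × Bool} {u : List (V × Bool)} (hu : (HL Γ u).Nodup)
    (h : ev Γ u ∈ Lk Γ x.1) : All Γ x u := by
  classical
  have h1 := ret_ev Γ x.1 u
  rw [ret_Lk Γ h] at h1
  have h2 := len_le_of_nodup Γ hu h1
  intro z hz
  by_contra h3
  have h4 : (u.filter fun z => Γ.Adj x.1 z.1).length < u.length := by
    rw [List.length_filter_lt_length_iff_exists]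
    exact ⟨z, hz, by simpa using h3⟩
  omega

theorem Fc_type {v : V} {g : Raag Γ} (hg : g ∈ Lk Γ v) {u : List (V × Bool)}
    (hu : ev Γ u = g) (g' : Raag Γ) : Fc Γ u (hp Γ v g') = 0 := by
  obtain ⟨u', h1, h2⟩ := Lk_word Γ hg
  rw [Fc_eq Γ (hu.trans h2.symm)]
  clear hu h2
  induction u' with
  | nil => simp [Fc]
  | cons x u' ih =>
    have h3 : hp Γ v g' ≠ hy Γ x u' := by
      intro h4
      have h5 := hp_fst Γ h4
      exact Γ.loopless.irrefl v (h5 ▸ h1 x (by simp))
    simp only [Fc, Pi.add_apply, Pi.smul_apply, dl, if_neg h3, smul_zero, add_zero]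
    exact ih fun z hz => h1 z (by simp [hz])

theorem mem_HL {u : List (V × Bool)} {k : Hp Γ} (h : k ∈ HL Γ u) :
    ∃ u1 y u2, u = u1 ++ y :: u2 ∧ hy Γ y u2 = k := by
  induction u with
  | nil => simp [HL] at h
  | cons x u ih =>
    rcases List.mem_cons.1 h with h | h
    · exact ⟨[], x, u, rfl, h.symm⟩
    · obtain ⟨u1, y, u2, rfl, h2⟩ := ih h
      exact ⟨x :: u1, y, u2, rfl, h2⟩

theorem hy_append {x z : V × Bool} {u v r : List (V × Bool)} (h : hy Γ z v = hy Γ x u) :
    hy Γ z (v ++ r) = hy Γ x (u ++ r) := by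
  have h1 : z.1 = x.1 := hp_fst Γ h
  unfold hy at h ⊢
  rw [h1] at h ⊢
  rw [hp_eq] at h ⊢
  have key : ∀ (b : Bool) (y : V × Bool) (w : List (V × Bool)),
      (if b then ev Γ (w ++ r) else ev Γ (y :: (w ++ r))) =
        (if b then ev Γ w else ev Γ (y :: w)) * ev Γ r := by
    intro b y w
    cases b <;> simp [mul_assoc]
  have key2 : ∀ X Z R : Raag Γ, X * R * (Z * R)⁻¹ = X * Z⁻¹ := by intro X Z R; group
  rw [key, key, key2]
  exact h

theorem nodup_of_not_can : ∀ (n : ℕ) (u : List (V × Bool)), u.length = n → ¬ Can Γ u →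
    (HL Γ u).Nodup := by
  intro n
  induction n using Nat.strong_induction_on with
  | _ n ih =>
  intro u hn hu
  rcases u with _ | ⟨x, u⟩
  · simp [HL]
  simp only [Can, not_or] at hu
  simp only [List.length_cons] at hn
  simp only [HL, List.nodup_cons]
  refine ⟨?_, ih u.length (by omega) u rfl hu.1⟩
  intro hmem
  -- first occurrence
  have hex : ∃ k : ℕ, ∃ u1 y u2, u1.length = k ∧ u = u1 ++ y :: u2 ∧ hy Γ y u2 = hy Γ x u := by
    obtain ⟨u1, y, u2, h1, h2⟩ := mem_HL Γ hmem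
    exact ⟨_, u1, y, u2, rfl, h1, h2⟩
  classical
  obtain ⟨u1, y, u2, hk, hu1, hy1⟩ := Nat.find_spec hex
  have hmin : ∀ u3 z u4, u1 = u3 ++ z :: u4 → hy Γ z (u4 ++ y :: u2) ≠ hy Γ x u := by
    intro u3 z u4 h3 h4
    refine Nat.find_min hex (m := u3.length) ?_ ⟨u3, z, u4 ++ y :: u2, rfl, ?_, h4⟩
    · rw [← hk, h3]
      simp
    · rw [hu1, h3]
      simp
  have hc1 : ¬ Can Γ u1 := by
    have := hu.1
    rw [hu1, Can_append] at this
    tauto
  have hn1 : (HL Γ u1).Nodup := by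
    refine ih u1.length ?_ u1 rfl hc1
    have : u.length = u1.length + (u2.length + 1) := by rw [hu1]; simp
    omega
  have hv : y.1 = x.1 := hp_fst Γ hy1
  -- the opposite sign case
  have hopp : ev Γ u1 ∈ Lk Γ x.1 → y = iv x → False := by
    intro h1 h2
    apply hu.2
    rw [hu1, ← h2]
    apply Pre_of
    have := all_of_nodup Γ hn1 h1
    intro z hz
    rw [hv]
    exact this z hz
  -- the same sign case
  have hsame : ev Γ (x :: u1) ∈ Lk Γ x.1 → False := by
    intro h1
    have h2 : Fc Γ (x :: u1) (hy Γ x u1) = 0 := Fc_type Γ h1 rfl _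
    have h3 : Fc Γ u1 (hy Γ x u1) ≠ 0 := by
      intro h4
      simp only [Fc, Pi.add_apply, Pi.smul_apply, dl, if_true, h4, zero_add, smul_eq_mul,
        mul_one] at h2
      exact sg_ne x h2
    obtain ⟨u3, z, u4, h5, h6⟩ := mem_HL Γ (Fc_supp Γ h3)
    refine hmin u3 z u4 h5 ?_
    rw [hu1]
    exact hy_append Γ h6
  rcases x with ⟨v, b⟩
  rcases y with ⟨v', b'⟩
  simp only at hv
  subst hv
  have hT : gl Γ (v', true) = gn Γ v' := by simp [gl]
  have hF : gl Γ (v', false) = (gn Γ v')⁻¹ := by simp [gl]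
  unfold hy at hy1
  simp only at hy1
  rw [hp_eq] at hy1
  rw [hu1] at hy1
  cases b <;> cases b' <;>
    simp only [Bool.false_eq_true, if_false, if_true, ev_cons, ev_append, hT, hF] at hy1
  · -- false false
    apply hsame
    rw [ev_cons, hF]
    have : (gn Γ v')⁻¹ * (ev Γ u1 * ((gn Γ v')⁻¹ * ev Γ u2)) * ((gn Γ v')⁻¹ * ev Γ u2)⁻¹ =
        (gn Γ v')⁻¹ * ev Γ u1 := by group
    rwa [this] at hy1
  · -- x false, y true
    refine hopp ?_ (by simp [iv])
    have : (gn Γ v')⁻¹ * (ev Γ u1 * (gn Γ v' * ev Γ u2)) * (ev Γ u2)⁻¹ =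
        (gn Γ v')⁻¹ * ev Γ u1 * gn Γ v' := by group
    rw [this] at hy1
    have h3 := Lk_comm Γ hy1
    have h4 : ev Γ u1 = (gn Γ v')⁻¹ * ev Γ u1 * gn Γ v' := by
      have h5 : gn Γ v' * ((gn Γ v')⁻¹ * ev Γ u1 * gn Γ v') =
        ((gn Γ v')⁻¹ * ev Γ u1 * gn Γ v') * gn Γ v' := h3
      have h6 : ev Γ u1 * gn Γ v' = ((gn Γ v')⁻¹ * ev Γ u1 * gn Γ v') * gn Γ v' := by
        rw [← h5]; group
      exact mul_right_cancel h6
    rw [h4]
    exact hy1
  · -- x true, y false
    refine hopp ?_ (by simp [iv])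
    have : ev Γ u1 * ((gn Γ v')⁻¹ * ev Γ u2) * ((gn Γ v')⁻¹ * ev Γ u2)⁻¹ = ev Γ u1 := by group
    rwa [this] at hy1
  · -- true true
    apply hsame
    rw [ev_cons, hT]
    have : ev Γ u1 * (gn Γ v' * ev Γ u2) * (ev Γ u2)⁻¹ = ev Γ u1 * gn Γ v' := by group
    rw [this] at hy1
    have h3 := Lk_comm Γ hy1
    have h4 : gn Γ v' * (ev Γ u1 * gn Γ v') = (ev Γ u1 * gn Γ v') * gn Γ v' := h3
    have h5 : gn Γ v' * ev Γ u1 = ev Γ u1 * gn Γ v' := by
      rw [← mul_assoc] at h4
      exact mul_right_cancel h4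
    rw [h5]
    exact hy1

/-- Words without cancellation pairs are geodesic. -/
theorem geodesic {u u' : List (V × Bool)} (hu : ¬ Can Γ u) (h : ev Γ u = ev Γ u') :
    u.length ≤ u'.length :=
  len_le_of_nodup Γ (nodup_of_not_can Γ _ u rfl hu) h

end

end Pool.R640.CG
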